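import Pool.Agent.Q4.Leo.Final

/-!
# The equitable `U_q(sl_2)`-action on a `q`-Racah Leonard pair

`Q4.Leo.IsLeonardPair`, `Q4.Leo.HasParameterArray` are the notions of Leonard pair and of parameter
array; `Q4.Leo.lam`, `Q4.Leo.phi`, `Q4.Leo.psi` are the eigenvalues `λ_i(x)` and the numbers `φ_i`,
`ϕ_i` of the problem; `E` is `A^ε`; `Q4.Leo.IsEquitable` says that the maps `X, X⁻¹ = X', Y, Z`
satisfy the equitable relations of `U_q(sl_2)`, and `Q4.Leo.IsIrred` that the resulting module is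
irreducible.
-/

namespace Pool.Agent.Results.MP_dc3d2a_al.EquitableAction

open Q4.Leo in
/-- For every Leonard pair `A, A^* = B` of `q`-Racah type the space `V` carries an irreducible
`U_q(sl_2)`-module structure with the three identities of the problem. -/
theorem result {K V : Type*} [Field K] [AddCommGroup V] [Module K V] (d : ℕ) (a b c q : K)
    (ha : a ≠ 0) (hb : b ≠ 0) (hc : c ≠ 0) (hq : q ≠ 0) (hq4 : q ^ 4 ≠ 1)
    (A B : Module.End K V) (hL : IsLeonardPair d A B)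
    (hP : HasParameterArray d A B (lam d q a) (lam d q b) (phi d q a b c) (psi d q a b c))
    (E : Module.End K V)
    (hE : (q ^ 2 - (q ^ 2)⁻¹) • E = q⁻¹ • (A * B) - q • (B * A) +
      ((q - q⁻¹) * ((a + a⁻¹) * (b + b⁻¹) + (c + c⁻¹) * (q ^ (d + 1) + (q ^ (d + 1))⁻¹))) •
        (1 : Module.End K V)) :
    ∃ X X' Y Z : Module.End K V, IsEquitable q X X' Y Z ∧ IsIrred X X' Y Z ∧
      A = a • X + a⁻¹ • Y + (c / b) • ((q - q⁻¹)⁻¹ • (X * Y - Y * X)) ∧
      B = b • Z + b⁻¹ • X + (a / c) • ((q - q⁻¹)⁻¹ • (Z * X - X * Z)) ∧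
      E = c • Y + c⁻¹ • Z + (b / a) • ((q - q⁻¹)⁻¹ • (Y * Z - Z * Y)) :=
  equitable d a b c q ha hb hc hq hq4 A B hL hP E hE

end Pool.Agent.Results.MP_dc3d2a_al.EquitableAction
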